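import Pool.Agent.H71.GW.Targets

/-!
# Lattice Golomb-Welch: norms, supports and additional units (module BAS)
-/

set_option autoImplicit false

open Finset
open scoped Classical

namespace Pool.Agent.H18.GW

open Pool.Agent.H71.GW

section

variable {J : Type} [Fintype J]

theorem len_eq_sum (u : J → ℕ) : len u = ∑ j, if u j = 0 then 0 else 1 := by
  unfold len
  rw [Finset.card_filter]
  refine Finset.sum_congr rfl fun j _ => ?_
  by_cases h : u j = 0 <;> simp [h]

theorem wt_add_single (κ : J → ℕ) (j : J) (e : ℕ) : wt (κ + Pi.single j e) = wt κ + e := by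
  unfold wt
  simp only [Pi.add_apply, Finset.sum_add_distrib]
  rw [Finset.sum_pi_single' j e univ]
  simp

omit [Fintype J] in
theorem le_of_add_single (κ u : J → ℕ) (j : J) (e : ℕ) (h : κ + Pi.single j e ≤ u) : κ ≤ u := by
  intro i
  have h1 : κ i + (Pi.single j e : J → ℕ) i ≤ u i := h i
  exact le_trans (Nat.le_add_right _ _) h1

theorem sum_split (f g : J → ℕ) (j : J) (c d : ℕ) (h : ∀ i, i ≠ j → f i = g i)
    (hj : f j + c = g j + d) : ∑ i, f i + c = ∑ i, g i + d := by
  rw [← Finset.add_sum_erase univ f (mem_univ j), ← Finset.add_sum_erase univ g (mem_univ j)]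
  have : ∑ x ∈ univ.erase j, f x = ∑ x ∈ univ.erase j, g x :=
    Finset.sum_congr rfl fun i hi => h i (Finset.ne_of_mem_erase hi)
  omega

theorem bas : T_BAS := by
  intro J _ κ u
  refine ⟨fun h => ⟨?_, ?_, ?_⟩, fun j e => ⟨wt_add_single κ j e, ?_, ?_,
    le_of_add_single κ u j e, ?_, ?_⟩⟩
  · unfold len
    refine Finset.card_le_card fun j hj => ?_
    simp only [mem_filter, mem_univ, true_and] at hj ⊢
    have : κ j ≤ u j := h j
    omega
  · exact Finset.sum_le_sum fun j _ => h j
  · have h1 : len κ ≤ len u := by
      unfold len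
      refine Finset.card_le_card fun j hj => ?_
      simp only [mem_filter, mem_univ, true_and] at hj ⊢
      have : κ j ≤ u j := h j
      omega
    have h2 : wt u + len κ = wt κ + len u + ex κ u := by
      unfold wt ex
      rw [len_eq_sum, len_eq_sum, ← Finset.sum_add_distrib, ← Finset.sum_add_distrib,
        ← Finset.sum_add_distrib]
      refine Finset.sum_congr rfl fun j _ => ?_
      have : κ j ≤ u j := h j
      by_cases h3 : κ j = 0
      · by_cases h4 : u j = 0
        · simp [h3, h4]
        · simp only [h3, h4, if_true, if_false]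
          omega
      · have h4 : u j ≠ 0 := by omega
        simp only [h3, h4, if_false]
        omega
    omega
  · intro h
    rw [len_eq_sum, len_eq_sum]
    refine sum_split _ _ j 0 1 (fun i hi => ?_) ?_ |>.trans rfl
    · simp [Pi.single_eq_of_ne hi]
    · simp [h]
  · intro h
    rw [len_eq_sum, len_eq_sum]
    refine Finset.sum_congr rfl fun i _ => ?_
    by_cases hi : i = j
    · subst hi
      have : κ i + e ≠ 0 := by omega
      simp [h]
    · simp [Pi.single_eq_of_ne hi]
  · intro h h1
    unfold ex
    have : κ j + (Pi.single j (e + 1) : J → ℕ) j ≤ u j := h1 j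
    rw [Pi.single_eq_same] at this
    refine sum_split _ _ j e 0 (fun i hi => ?_) ?_ |>.trans (Nat.add_zero _)
    · simp [Pi.single_eq_of_ne hi]
    · simp only [Pi.add_apply, Pi.single_eq_same, h]
      simp
      omega
  · intro h h1
    unfold ex
    have : κ j + (Pi.single j e : J → ℕ) j ≤ u j := h1 j
    rw [Pi.single_eq_same] at this
    refine sum_split _ _ j e 0 (fun i hi => ?_) ?_ |>.trans (Nat.add_zero _)
    · simp [Pi.single_eq_of_ne hi]
    · simp only [Pi.add_apply, Pi.single_eq_same, h]
      have h2 : κ j + e ≠ 0 := by omega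
      simp only [h2, if_false]
      omega

end

end Pool.Agent.H18.GW
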