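import Pool.Agent.H11.KT.Stmt2

/-!
# MP_0b603e_al: good words, definitions used in the final statement
-/

set_option autoImplicit false

open scoped commutatorElement

namespace Pool.Agent.H18.GW

open Pool.Agent.H11.KT

/-- `w` is good with the constants `c` and `e`: every finitely generated group `H` with the law `w`
has a normal subgroup `N` of finite index which contains all `e`-th powers, and such that every
element of the term `γ_{c+1}(N)` of the lower central series of `N` lies in a finitely generated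
perfect subgroup of `H` -/
def GoodCE {r : ℕ} (c e : ℕ) (w : FreeGroup (Fin r)) : Prop :=
  ∀ (H : Type) [Group H], Group.FG H → Law w H →
    ∃ N : Subgroup H, N.Normal ∧ N.FiniteIndex ∧ (∀ x : H, x ^ e ∈ N) ∧
      ∀ g ∈ N.lowerCentralSeries c, ∃ A : Subgroup H, A.FG ∧ ⁅A, A⁆ = A ∧ g ∈ A

/-- `w` is good -/
def GoodWord {r : ℕ} (w : FreeGroup (Fin r)) : Prop :=
  ∃ c e : ℕ, 0 < e ∧ GoodCE c e w

/-- the simple commutator `⁅⁅h 0, h 1⁆, .., h c⁆` of weight `c + 1` -/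
def scm {G : Type} [Group G] : ℕ → (ℕ → G) → G
  | 0, h => h 0
  | c + 1, h => ⁅scm c h, h (c + 1)⁆

/-- the word `u c(x y x⁻¹, x ^ 2 y x⁻², .., x ^ m y x⁻ᵐ)`, `x` and `y` the two variables -/
def gword (u : FreeGroup (Fin 2)) (m : ℕ) (c : FreeGroup (Fin m)) : FreeGroup (Fin 2) :=
  u * FreeGroup.lift (fun i : Fin m =>
    FreeGroup.of 0 ^ ((i : ℕ) + 1) * FreeGroup.of 1 * (FreeGroup.of 0 ^ ((i : ℕ) + 1))⁻¹) c

/-- the word `⁅y, x ^ 2⁆` -/
def wordB : FreeGroup (Fin 2) :=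
  ⁅(FreeGroup.of 1 : FreeGroup (Fin 2)), (FreeGroup.of 0 : FreeGroup (Fin 2)) ^ 2⁆

/-- the word `⁅⁅y, x⁆, x⁆` -/
def wordC : FreeGroup (Fin 2) :=
  ⁅⁅(FreeGroup.of 1 : FreeGroup (Fin 2)), (FreeGroup.of 0 : FreeGroup (Fin 2))⁆,
    (FreeGroup.of 0 : FreeGroup (Fin 2))⁆

end Pool.Agent.H18.GW
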