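import Pool.Agent.H11.KT.Targets
import Pool.Agent.H11.EL.Fin
import Pool.Agent.H6.KT.PRS
import Pool.Agent.H18.GW.Stmt

/-!
# MP_0b603e_al: good words, definitions and basic lemmas
-/

set_option autoImplicit false

open scoped commutatorElement

namespace Pool.Agent.H18.GW

open Pool.Agent.H11.EL Pool.Agent.H11.KT

/-- the verbal subgroup `w(G)` -/
def Vb {r : ℕ} (w : FreeGroup (Fin r)) (G : Type) [Group G] : Subgroup G :=
  Subgroup.closure (Set.range (fun f : Fin r → G => FreeGroup.lift f w))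

/-- `g` is a product of at most `k` elements of `S` and inverses of elements of `S` -/
def BP {G : Type} [Group G] (S : Set G) (k : ℕ) (g : G) : Prop :=
  ∃ l : List G, l.length ≤ k ∧ (∀ x ∈ l, x ∈ S ∨ x⁻¹ ∈ S) ∧ l.prod = g

/-- the subgroup generated by the `n`-th powers -/
def Pw (n : ℕ) (G : Type) [Group G] : Subgroup G := Subgroup.closure {y | ∃ x : G, x ^ n = y}

/-- the word `x ^ e w(y)` -/
def w2 {r : ℕ} (e : ℕ) (w : FreeGroup (Fin r)) : FreeGroup (Fin (r + 1)) :=
  FreeGroup.of 0 ^ e * FreeGroup.map Fin.succ w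

section basic

variable {r : ℕ} {w : FreeGroup (Fin r)} {G : Type} [Group G]

theorem PW_iff (k : ℕ) (g : G) :
    PW w k g ↔ BP (Set.range (fun f : Fin r → G => FreeGroup.lift f w)) k g := Iff.rfl

theorem lift_map {H : Type} [Group H] (w : FreeGroup (Fin r)) (φ : G →* H) (f : Fin r → G) :
    φ (FreeGroup.lift f w) = FreeGroup.lift (fun i => φ (f i)) w :=
  Pool.Agent.H6.KT.RS_lift_map w φ f

instance Vb_normal (w : FreeGroup (Fin r)) (G : Type) [Group G] : (Vb w G).Normal :=
  Pool.Agent.H6.KT.RS_normal w G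

theorem mem_Vb (w : FreeGroup (Fin r)) (f : Fin r → G) : FreeGroup.lift f w ∈ Vb w G :=
  Subgroup.subset_closure ⟨f, rfl⟩

theorem BP.one (S : Set G) (k : ℕ) : BP S k 1 := ⟨[], by simp, by simp, rfl⟩

theorem BP.mono {S : Set G} {k l : ℕ} {g : G} (h : BP S k g) (hkl : k ≤ l) : BP S l g := by
  obtain ⟨L, h1, h2, h3⟩ := h
  exact ⟨L, h1.trans hkl, h2, h3⟩

theorem BP.of_mem {S : Set G} {g : G} (h : g ∈ S) : BP S 1 g :=
  ⟨[g], by simp, fun x hx => by
    rw [List.mem_singleton] at hx
    exact Or.inl (hx ▸ h), by simp⟩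

theorem BP.mul {S : Set G} {k l : ℕ} {g h : G} (hg : BP S k g) (hh : BP S l h) :
    BP S (k + l) (g * h) := by
  obtain ⟨L, h1, h2, h3⟩ := hg
  obtain ⟨L', h1', h2', h3'⟩ := hh
  refine ⟨L ++ L', ?_, ?_, ?_⟩
  · rw [List.length_append]; omega
  · intro x hx
    rcases List.mem_append.1 hx with h | h
    · exact h2 x h
    · exact h2' x h
  · rw [List.prod_append, h3, h3']

theorem BP.inv {S : Set G} {k : ℕ} {g : G} (hg : BP S k g) : BP S k g⁻¹ := by
  obtain ⟨L, h1, h2, h3⟩ := hg
  refine ⟨(L.map fun x => x⁻¹).reverse, ?_, ?_, ?_⟩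
  · simpa using h1
  · intro x hx
    rw [List.mem_reverse, List.mem_map] at hx
    obtain ⟨y, hy, rfl⟩ := hx
    rcases h2 y hy with h | h
    · exact Or.inr (by rwa [inv_inv])
    · exact Or.inl h
  · rw [← List.prod_inv_reverse, h3]

theorem BP.list {S : Set G} {k : ℕ} (L : List G) (h : ∀ x ∈ L, BP S k x) :
    BP S (L.length * k) L.prod := by
  induction L with
  | nil => simpa using BP.one S 0
  | cons x L ih =>
    have h1 := h x List.mem_cons_self
    have h2 := ih fun y hy => h y (List.mem_cons_of_mem x hy)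
    have h3 := h1.mul h2
    rw [List.prod_cons, List.length_cons]
    refine h3.mono ?_
    rw [Nat.succ_mul]
    omega

/-- products of products -/
theorem BP.trans {S T : Set G} {k l : ℕ} {g : G} (hg : BP T k g) (h : ∀ t ∈ T, BP S l t) :
    BP S (k * l) g := by
  obtain ⟨L, h1, h2, rfl⟩ := hg
  refine (BP.list L fun x hx => ?_).mono (Nat.mul_le_mul_right l h1)
  rcases h2 x hx with h3 | h3
  · exact h x h3
  · have h4 := (h _ h3).inv
    rwa [inv_inv] at h4

theorem BP.mem_closure {S : Set G} {k : ℕ} {g : G} (h : BP S k g) :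
    g ∈ Subgroup.closure S := by
  obtain ⟨L, _, h2, rfl⟩ := h
  refine Subgroup.list_prod_mem _ fun x hx => ?_
  rcases h2 x hx with h | h
  · exact Subgroup.subset_closure h
  · have := Subgroup.inv_mem _ (Subgroup.subset_closure h)
    rwa [inv_inv] at this

/-- every element of the closure is a product of some length -/
theorem BP.exists {S : Set G} {g : G} (h : g ∈ Subgroup.closure S) : ∃ k : ℕ, BP S k g := by
  induction h using Subgroup.closure_induction with
  | mem x hx => exact ⟨1, BP.of_mem hx⟩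
  | one => exact ⟨0, BP.one S 0⟩
  | mul x y _ _ hx hy =>
    obtain ⟨k, hk⟩ := hx
    obtain ⟨l, hl⟩ := hy
    exact ⟨k + l, hk.mul hl⟩
  | inv x _ hx =>
    obtain ⟨k, hk⟩ := hx
    exact ⟨k, hk.inv⟩

theorem pw_exists {g : G} (h : g ∈ Vb w G) : ∃ k : ℕ, PW w k g := BP.exists h

theorem pw_mem {k : ℕ} {g : G} (h : PW w k g) : g ∈ Vb w G := BP.mem_closure h

theorem pw_conj {k : ℕ} {g : G} (h : PW w k g) (x : G) : PW w k (x * g * x⁻¹) :=
  h.map (MulAut.conj x).toMonoidHom

/-- `⁅x, g⁆` -/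
theorem pw_comm_right {k : ℕ} {g : G} (h : PW w k g) (x : G) : PW w (2 * k) ⁅x, g⁆ := by
  rw [commutatorElement_def, two_mul]
  exact (pw_conj h x).mul h.inv

/-- `⁅g, x⁆` -/
theorem pw_comm_left {k : ℕ} {g : G} (h : PW w k g) (x : G) : PW w (2 * k) ⁅g, x⁆ := by
  rw [commutatorElement_def, two_mul, mul_assoc, mul_assoc]
  refine h.mul ?_
  rw [← mul_assoc]
  exact pw_conj h.inv x

/-- the verbal subgroup of an image -/
theorem Vb_map {H : Type} [Group H] (w : FreeGroup (Fin r)) (φ : G →* H)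
    (hφ : Function.Surjective φ) : (Vb w G).map φ = Vb w H := by
  unfold Vb
  rw [MonoidHom.map_closure]
  congr 1
  ext y
  constructor
  · rintro ⟨_, ⟨f, rfl⟩, rfl⟩
    exact ⟨fun i => φ (f i), (lift_map w φ f).symm⟩
  · rintro ⟨f, rfl⟩
    choose g hg using fun i => hφ (f i)
    refine ⟨_, ⟨g, rfl⟩, ?_⟩
    dsimp only
    rw [lift_map, funext hg]

/-- lifting of products of values -/
theorem pw_lift {H : Type} [Group H] (φ : G →* H) (hφ : Function.Surjective φ) {k : ℕ} {y : H}
    (h : PW w k y) : ∃ g : G, φ g = y ∧ PW w k g := by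
  obtain ⟨L, h1, h2, rfl⟩ := h
  have key : ∀ L : List H, (∀ x ∈ L, x ∈ Set.range (fun f : Fin r → H => FreeGroup.lift f w) ∨
      x⁻¹ ∈ Set.range (fun f : Fin r → H => FreeGroup.lift f w)) →
      ∃ g : G, φ g = L.prod ∧ PW w L.length g := by
    intro L
    induction L with
    | nil => exact fun _ => ⟨1, by simp, PW.one 0⟩
    | cons x L ih =>
      intro h
      obtain ⟨g, hg1, hg2⟩ := ih fun y hy => h y (List.mem_cons_of_mem x hy)
      have hx : ∃ a : G, φ a = x ∧ PW w 1 a := by
        rcases h x List.mem_cons_self with ⟨f, hf⟩ | ⟨f, hf⟩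
        · choose b hb using fun i => hφ (f i)
          refine ⟨FreeGroup.lift b w, ?_, PW.val b⟩
          rw [lift_map, funext hb]
          exact hf
        · choose b hb using fun i => hφ (f i)
          refine ⟨(FreeGroup.lift b w)⁻¹, ?_, (PW.val b).inv⟩
          rw [map_inv, lift_map, funext hb]
          rw [inv_eq_iff_eq_inv]
          exact hf
      obtain ⟨a, ha1, ha2⟩ := hx
      refine ⟨a * g, ?_, ?_⟩
      · rw [map_mul, ha1, hg1, List.prod_cons]
      · rw [List.length_cons, add_comm]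
        exact ha2.mul hg2
  obtain ⟨g, hg1, hg2⟩ := key L h2
  exact ⟨g, hg1, hg2.mono h1⟩

/-- the law passes to the quotient modulo the verbal subgroup -/
theorem Law_quot (w : FreeGroup (Fin r)) (G : Type) [Group G] : Law w (G ⧸ Vb w G) := by
  intro f
  choose g hg using fun i => QuotientGroup.mk'_surjective (Vb w G) (f i)
  have h1 : f = fun i => QuotientGroup.mk' (Vb w G) (g i) := by
    funext i
    exact (hg i).symm
  rw [h1, ← lift_map]
  exact (QuotientGroup.eq_one_iff _).2 (mem_Vb w g)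

/-- the law passes to subgroups -/
theorem Law_sub {w : FreeGroup (Fin r)} (h : Law w G) (H : Subgroup G) : Law w H := by
  intro f
  apply H.subtype_injective
  rw [lift_map, map_one]
  exact h _

theorem lift_w2 (e : ℕ) (w : FreeGroup (Fin r)) (f : Fin (r + 1) → G) :
    FreeGroup.lift f (w2 e w) = f 0 ^ e * FreeGroup.lift (fun i => f i.succ) w := by
  unfold w2
  rw [map_mul, map_pow, FreeGroup.lift_apply_of]
  congr 1
  have h1 : (FreeGroup.lift f).comp (FreeGroup.map Fin.succ) =
      FreeGroup.lift fun i : Fin r => f i.succ := by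
    ext i
    simp
  rw [← h1]
  rfl

end basic

/-- simple commutators and homomorphisms -/
theorem scm_map {G H : Type} [Group G] [Group H] (φ : G →* H) (c : ℕ) (h : ℕ → G) :
    φ (scm c h) = scm c (fun i => φ (h i)) := by
  induction c with
  | zero => rfl
  | succ c ih =>
    change φ ⁅scm c h, h (c + 1)⁆ = ⁅scm c _, φ (h (c + 1))⁆
    rw [map_commutatorElement, ih]

theorem scm_mem {G : Type} [Group G] (N : Subgroup G) (c : ℕ) (h : ℕ → G)
    (hN : ∀ i ≤ c, h i ∈ N) : scm c h ∈ N.lowerCentralSeries c := by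
  induction c with
  | zero => exact hN 0 le_rfl
  | succ c ih =>
    exact Subgroup.commutator_mem_commutator (ih fun i hi => hN i (by omega)) (hN (c + 1) le_rfl)

theorem scm_congr {G : Type} [Group G] (c : ℕ) (h h' : ℕ → G) (hh : ∀ i ≤ c, h i = h' i) :
    scm c h = scm c h' := by
  induction c with
  | zero => exact hh 0 le_rfl
  | succ c ih =>
    change ⁅scm c h, h (c + 1)⁆ = ⁅scm c h', h' (c + 1)⁆
    rw [ih fun i hi => hh i (by omega), hh (c + 1) le_rfl]

theorem scm_pi {I : Type} {G : I → Type} [∀ i, Group (G i)] (c : ℕ) (h : ℕ → ∀ i, G i) (i : I) :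
    scm c h i = scm c (fun j => h j i) := by
  induction c with
  | zero => rfl
  | succ c ih =>
    change (⁅scm c h, h (c + 1)⁆ : ∀ i, G i) i = ⁅scm c _, h (c + 1) i⁆
    rw [← ih]
    rfl

/-! ## Polynomial maps -/

section pol

variable {Γ R : Type} [Group Γ] [Group R]

/-- the difference `x ↦ f(x)⁻¹ f(x h)` -/
def Dl (h : Γ) (f : Γ → R) : Γ → R := fun x => (f x)⁻¹ * f (x * h)

/-- all `n`-fold differences are trivial -/
def Pol : ℕ → (Γ → R) → Prop
  | 0, f => ∀ x, f x = 1
  | n + 1, f => ∀ h, Pol n (Dl h f)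

/-- polynomial maps with respect to a descending sequence of subgroups -/
def PP (F : ℕ → Subgroup R) : ℕ → ℕ → (Γ → R) → Prop
  | 0, i, f => ∀ x, f x ∈ F i
  | m + 1, i, f => (∀ x, f x ∈ F i) ∧ ∀ h, PP F m (i + 1) (Dl h f)

/-- a filtration -/
structure Filt (F : ℕ → Subgroup R) : Prop where
  top : F 0 = ⊤
  anti : ∀ i, F (i + 1) ≤ F i
  comm : ∀ i j, ⁅F i, F j⁆ ≤ F (i + j)

end pol

/-- the lower central series of `N` as a filtration of `R` -/
def fil {R : Type} [Group R] (N : Subgroup R) : ℕ → Subgroup R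
  | 0 => ⊤
  | i + 1 => N.lowerCentralSeries i

end Pool.Agent.H18.GW
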