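import Pool.Agent.H18.GW.Targets

/-!
# MP_0b603e_al: good words, auxiliary lemmas
-/

set_option autoImplicit false

open scoped commutatorElement

namespace Pool.Agent.H18.GW

open Pool.Agent.H11.EL Pool.Agent.H11.KT

/-- extension by a bounded normal subgroup, one element -/
theorem pw_ext {r : ℕ} {w : FreeGroup (Fin r)} {R : Type} [Group R] (L : Subgroup R) [L.Normal]
    {m n : ℕ} (hL : ∀ g ∈ L, PW w m g) {g : R} (hg : PW w n (QuotientGroup.mk' L g)) :
    PW w (n + m) g := by
  obtain ⟨g', h1, h2⟩ := pw_lift (QuotientGroup.mk' L) (QuotientGroup.mk'_surjective L) hg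
  have h3 : g'⁻¹ * g ∈ L := QuotientGroup.eq.1 h1
  have h4 := h2.mul (hL _ h3)
  rwa [mul_inv_cancel_left] at h4

theorem pf_BX : T_BX := by
  rintro R _ L _ r w ⟨m, hm⟩ ⟨n, hn⟩
  refine ⟨n + m, fun g hg => pw_ext L hm (hn _ ?_)⟩
  rw [← Vb_map w (QuotientGroup.mk' L) (QuotientGroup.mk'_surjective L)]
  exact ⟨g, hg, rfl⟩

/-- a finite set of elements of `w(R)` is bounded -/
theorem pw_finite {r : ℕ} {w : FreeGroup (Fin r)} {R : Type} [Group R] (X : Set R)
    (hX : X.Finite) (hXV : X ⊆ Vb w R) : ∃ n : ℕ, ∀ g ∈ X, PW w n g := by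
  classical
  have h1 : ∀ g : R, ∃ n : ℕ, g ∈ X → PW w n g := by
    intro g
    by_cases hg : g ∈ X
    · obtain ⟨n, hn⟩ := pw_exists (hXV hg)
      exact ⟨n, fun _ => hn⟩
    · exact ⟨0, fun h => absurd h hg⟩
  choose n hn using h1
  refine ⟨∑ g ∈ hX.toFinset, n g, fun g hg => (hn g hg).mono ?_⟩
  exact Finset.single_le_sum (f := n) (fun i _ => Nat.zero_le _) (hX.mem_toFinset.2 hg)

theorem lcs_mono {G : Type} [Group G] {A B : Subgroup G} (h : A ≤ B) (c : ℕ) :
    A.lowerCentralSeries c ≤ B.lowerCentralSeries c := by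
  induction c with
  | zero => exact h
  | succ c ih => exact Subgroup.commutator_mono ih h

theorem lcs_normal {G : Type} [Group G] {A : Subgroup G} (h : A.Normal) (c : ℕ) :
    (A.lowerCentralSeries c).Normal := by
  induction c with
  | zero => exact h
  | succ c ih =>
    have := ih
    rw [Subgroup.lowerCentralSeries_succ]
    infer_instance

/-- simple commutators of conjugates -/
theorem scm_conj {G : Type} [Group G] (c : ℕ) (h : ℕ → G) (x : G) :
    x * scm c h * x⁻¹ = scm c (fun i => x * h i * x⁻¹) :=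
  scm_map (MulAut.conj x).toMonoidHom c h

/-- values of `w` are values of `x ^ e w(y)` -/
theorem pw_w2 {r : ℕ} {w : FreeGroup (Fin r)} {G : Type} [Group G] (e : ℕ) {m : ℕ} {g : G}
    (h : PW w m g) : PW (w2 e w) m g := by
  have h1 : BP (Set.range (fun f : Fin r → G => FreeGroup.lift f w)) m g := h
  have h2 := h1.trans (S := Set.range (fun f : Fin (r + 1) → G => FreeGroup.lift f (w2 e w)))
    (l := 1) ?_
  · rwa [mul_one] at h2
  · rintro _ ⟨f, rfl⟩
    refine BP.of_mem ⟨Fin.cons 1 f, ?_⟩
    dsimp only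
    rw [lift_w2]
    simp

/-- powers are values of `x ^ e w(y)` -/
theorem pow_w2 {r : ℕ} (w : FreeGroup (Fin r)) {G : Type} [Group G] (e : ℕ) (x : G) :
    PW (w2 e w) 1 (x ^ e) := by
  refine BP.of_mem ⟨Fin.cons x (fun _ => 1), ?_⟩
  dsimp only
  rw [lift_w2]
  have h1 : FreeGroup.lift (fun i : Fin r => (Fin.cons x (fun _ => 1) : Fin (r + 1) → G) i.succ) w
      = 1 := by
    have h2 : (fun i : Fin r => (Fin.cons x (fun _ => 1) : Fin (r + 1) → G) i.succ) =
        fun _ => 1 := by
      funext i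
      simp
    rw [h2]
    have h3 : FreeGroup.lift (fun _ : Fin r => (1 : G)) = 1 := by
      ext i
      simp
    rw [h3]
    rfl
  rw [h1]
  simp

/-- a word in polynomial maps with trivial differences -/
theorem Pol_of_PP {Γ R : Type} [Group Γ] [Group R] (F : ℕ → Subgroup R) : ∀ (m i : ℕ)
    (f : Γ → R), PP F m i f → F (i + m) = ⊥ → Pol m f := by
  intro m
  induction m with
  | zero =>
    intro i f h hF x
    have h1 := h x
    rw [Nat.add_zero] at hF
    rw [hF] at h1
    exact h1
  | succ m ih =>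
    intro i f h hF k
    exact ih (i + 1) _ (h.2 k) (by rw [← hF]; congr 1; omega)

theorem Dl_mul_const {Γ R : Type} [Group Γ] [Group R] (a : R) (f : Γ → R) (h : Γ) :
    Dl h (fun x => a * f x) = Dl h f := by
  funext x
  unfold Dl
  group

theorem Pol_one {Γ R : Type} [Group Γ] [Group R] (n : ℕ) : Pol n (fun _ : Γ => (1 : R)) := by
  induction n with
  | zero => exact fun _ => rfl
  | succ n ih =>
    intro h
    have h1 : Dl h (fun _ : Γ => (1 : R)) = fun _ => 1 := by
      funext x
      simp [Dl]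
    rw [h1]
    exact ih

theorem PP_one {Γ R : Type} [Group Γ] [Group R] (F : ℕ → Subgroup R) (m i : ℕ) :
    PP F m i (fun _ : Γ => (1 : R)) := by
  induction m generalizing i with
  | zero => exact fun _ => (F i).one_mem
  | succ m ih =>
    refine ⟨fun _ => (F i).one_mem, fun h => ?_⟩
    have h1 : Dl h (fun _ : Γ => (1 : R)) = fun _ => 1 := by
      funext x
      simp [Dl]
    rw [h1]
    exact ih _

end Pool.Agent.H18.GW
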