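import Pool.Agent.H55.GW.Targets3

/-!
# Module STC: bases are met by states
-/

set_option autoImplicit false

namespace Pool.Agent.H18.GW.STC

open Pool.Agent.H55.GW

theorem low_symm {c : Ctx} {i : ℕ} {x y : Vx} (h : c.low i x y) : c.low i y x := Or.symm h

/-- a matched vertex has an incident edge of the allowed kind -/
theorem pmat_edge {F : Frame} {ed : Vx → Vx → Prop} (hed : ∀ x y, ed x y → ed y x) {J : Set ℕ}
    {m : ℕ → Vx} (h : PMat F ed J m) {v : ℕ} (hv : v ∈ J) :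
    ∃ y, F.G (Sum.inr v) y ∧ ed (Sum.inr v) y := by
  obtain ⟨-, ⟨e, -, h2, h3⟩ | ⟨u, -, -, -, h2, h3⟩⟩ := h v hv
  · exact ⟨Sum.inl e, h2, hed _ _ h3⟩
  · exact ⟨Sum.inr u, Frame.G_symm h2, hed _ _ h3⟩

theorem stc (hF : T_FPM) (hS : T_SPL) (hL : T_LOWA) : T_STC := by
  intro M c hM hc i hi A hA U hU
  obtain ⟨hE, hB⟩ := hM
  obtain ⟨L1, L2, L3⟩ := hL c hc i hi
  have hXE : c.Xs i ⊆ (c.F.E : Set ℕ) := fun e he => by simpa using he.1
  have hun : c.Xs i ∪ ((c.F.E : Set ℕ) \ c.Xs i) = (c.F.E : Set ℕ) :=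
    Set.union_sdiff_cancel hXE
  have hU' : U ⊆ (c.F.E : Set ℕ) \ c.Xs i := by rw [← hE]; exact hU
  have key := hS c.F (fun _ _ => True) (c.low i) (fun x y => ¬ c.low i x y) (c.Xs i)
    ((c.F.E : Set ℕ) \ c.Xs i) A U (c.F.V : Set ℕ) (fun x y h => low_symm h)
    (fun x y h h' => h (low_symm h')) (fun x y => by
      constructor
      · intro _; exact em _
      · intro _; trivial) (fun x y h => h.2 h.1) Set.disjoint_sdiff_right
    (fun e v hev => by
      refine ⟨L1 e v hev, ?_⟩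
      rw [L1 e v hev]
      have he : e ∈ c.F.E := Frame.att_E hev
      constructor
      · intro h; exact ⟨by simpa using he, h⟩
      · intro h; exact h.2) hA hU'
  rw [hun] at key
  rw [hB, ← hF c.F (A ∪ U), key]
  constructor
  · rintro ⟨J₁, hJ, h1, h2⟩
    have hcv : J₁ = c.cvS i (J₁ ∩ (c.Ξ : Set ℕ)) {a | c.s i a ∈ J₁} := by
      ext v
      constructor
      · intro hv
        obtain ⟨-, m, hm, -⟩ := h1
        obtain ⟨y, -, hy⟩ := pmat_edge (fun x y h => low_symm h) hm hv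
        by_cases hX : v ∈ c.Ξ
        · exact Or.inl (Or.inr ⟨hv, by simpa using hX⟩)
        · by_cases hs : ∃ a, v = c.s i a
          · obtain ⟨a, rfl⟩ := hs
            exact Or.inr ⟨a, hv, rfl⟩
          · push Not at hs
            by_cases hO : Sum.inr v ∈ c.O i
            · exact absurd hy (L3 v hO hX hs y)
            · exact Or.inl (Or.inl ⟨by simpa using hJ hv, hO, hX, hs⟩)
      · rintro ((hv | hv) | ⟨a, ha, rfl⟩)
        · by_contra hn
          obtain ⟨-, m, hm, -⟩ := h2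
          obtain ⟨y, hy1, hy2⟩ := pmat_edge (fun x y h h' => h (low_symm h')) hm
            (show v ∈ (c.F.V : Set ℕ) \ J₁ from ⟨by simpa using hv.1, hn⟩)
          exact hy2 (L2 v hv y hy1)
        · exact hv.1
        · exact ha
    refine ⟨(J₁ ∩ (c.Ξ : Set ℕ), {a | c.s i a ∈ J₁}), ⟨Set.inter_subset_right, ?_⟩, ?_⟩
    · simp only
      rw [← hcv]
      exact h1
    · show Cv _ _ _ _ _
      simp only
      rw [← hcv]
      exact h2
  · rintro ⟨p, ⟨hp1, hp2⟩, hp3⟩
    refine ⟨c.cvS i p.1 p.2, ?_, hp2, hp3⟩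
    rintro v ((hv | hv) | ⟨a, -, rfl⟩)
    · simpa using hv.1
    · simpa using (hc.xiV v (by simpa using hp1 hv)).1
    · simpa using (hc.sV i hi a).1

end Pool.Agent.H18.GW.STC
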