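import Pool.Agent.H55.GW.Targets3

/-!
# Module TRF: transfer of states through a good window
-/

set_option autoImplicit false

namespace Pool.Agent.H18.GW.TRF

open Pool.Agent.H55.GW

theorem trf (hM : T_MU0) (hA : T_TRA) (hB : T_TRB) (hW : T_WIN) (hL : T_LOWB) : T_TRF := by
  classical
  intro c hc i hg hbc
  obtain ⟨C, μ, hμ⟩ := hM c hc i hg
  have hi : i < c.T := by
    have := hg.2.1
    omega
  obtain ⟨-, -, -, -, -, -, W7, -⟩ := hL c hc i hi
  refine ⟨C, hμ.1, fun A hAX => ?_⟩
  apply Set.Subset.antisymm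
  · rintro ⟨K, Y⟩ hKY
    have hK : K ⊆ (c.Ξ : Set ℕ) := hKY.1
    obtain ⟨K', hK', Y', h1, h2, h3⟩ := (hW c hc i hi A hAX C hμ.1 K hK Y).1 hKY
    obtain ⟨rfl, g, g1, g2, g3⟩ := hB c hc i hg C μ hμ K hK K' hK' Y Y' h2 h3
    have hfin : (K \ K').Finite := (c.Ξ.finite_toSet.subset hK).subset Set.sdiff_subset
    set P : Set ℕ := {ξ | ξ ∈ K \ K' ∧ Sum.inr ξ ∈ c.O 0} with hP
    have hPf : P.Finite := hfin.subset fun x hx => hx.1
    have main : ∀ S : Finset ℕ, (S : Set ℕ) ⊆ P →
        ((K' ∪ ((S : Set ℕ) ∪ g '' (S : Set ℕ)), Y) : Set ℕ × Set (Fin c.k)) ∈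
          c.St (i + 1) A := by
      intro S
      induction S using Finset.induction_on with
      | empty =>
        intro _
        simpa using h1
      | insert ξ S hξS ih =>
        intro hS
        have hSP : (S : Set ℕ) ⊆ P := fun x hx => hS (by simp [show x ∈ S by simpa using hx])
        have hξP : ξ ∈ P := hS (by simp)
        obtain ⟨hgK, hgO, hgB⟩ := g2 ξ hξP.1 hξP.2
        have hξX : ξ ∈ c.Ξ := by simpa using hK hξP.1.1
        have hgX : g ξ ∈ c.Ξ := by simpa using hK hgK.1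
        have hgT : Sum.inr (g ξ) ∉ c.O c.T := by
          rcases (hc.xiV (g ξ) hgX).2 with h | h
          · exact absurd h hgO
          · exact h
        have hcl : c.Cls (i + 1) ξ (g ξ) := by
          rcases hbc ξ hξX (g ξ) hgX hξP.2 hgT with h | h
          · exact absurd h hgB
          · exact h
        have h4 := hcl A hAX _ Y (ih hSP) (by
          rintro (h | h | ⟨x, hx, h⟩)
          · exact hξP.1.2 h
          · exact hξS (by simpa using h)
          · exact (g2 x (hSP hx).1 (hSP hx).2).2.1 (h ▸ hξP.2)) (by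
          rintro (h | h | ⟨x, hx, h⟩)
          · exact hgK.2 h
          · exact hgO (hSP h).2
          · have := g1 (hSP hx) hξP h
            exact hξS (by rw [← this]; simpa using hx))
        have h5 : K' ∪ ((S : Set ℕ) ∪ g '' (S : Set ℕ)) ∪ {ξ, g ξ} =
            K' ∪ (((insert ξ S : Finset ℕ) : Set ℕ) ∪ g '' ((insert ξ S : Finset ℕ) : Set ℕ)) := by
          rw [Finset.coe_insert, Set.image_insert_eq]
          ext x
          simp only [Set.mem_union, Set.mem_insert_iff, Set.mem_singleton_iff]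
          tauto
        rw [h5] at h4
        exact h4
    have h6 := main hPf.toFinset (by simp)
    rw [Set.Finite.coe_toFinset] at h6
    have h7 : K' ∪ (P ∪ g '' P) = K := by
      ext x
      constructor
      · rintro (h | h | ⟨y, hy, rfl⟩)
        · exact hK' h
        · exact h.1.1
        · exact (g2 y hy.1 hy.2).1.1
      · intro h
        by_cases hx : x ∈ K'
        · exact Or.inl hx
        · by_cases hO : Sum.inr x ∈ c.O 0
          · exact Or.inr (Or.inl ⟨⟨h, hx⟩, hO⟩)
          · obtain ⟨ξ, hξ, hξO, rfl⟩ := g3 x ⟨h, hx⟩ hO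
            exact Or.inr (Or.inr ⟨ξ, ⟨hξ, hξO⟩, rfl⟩)
    rw [h7] at h6
    exact h6
  · rintro ⟨K, Y⟩ hKY
    have hK : K ⊆ (c.Ξ : Set ℕ) := hKY.1
    exact (hW c hc i hi A hAX C hμ.1 K hK Y).2 ⟨K, subset_rfl, Y, hKY, W7 K Y,
      hA c hc i hg C μ hμ K hK Y⟩

end Pool.Agent.H18.GW.TRF
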