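import Pool.Agent.H71.GW.Targets

/-!
# Lattice Golomb-Welch: transition of the number of completions (module TRN)
-/

set_option autoImplicit false

open Finset
open scoped Classical

namespace Pool.Agent.H18.GW

open Pool.Agent.H71.GW

theorem dF_add (x i : ℕ) : ∀ j, x.descFactorial (i + j) = x.descFactorial i * (x - i).descFactorial j
  | 0 => by simp
  | j + 1 => by
    rw [← add_assoc, Nat.descFactorial_succ, dF_add x i j, Nat.descFactorial_succ]
    have : x - (i + j) = x - i - j := by omega
    rw [this]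
    ring

theorem dF_succ (x i : ℕ) : x.descFactorial (i + 1) = x * (x - 1).descFactorial i := by
  rw [add_comm, dF_add, Nat.descFactorial_one]

theorem psi_of_le {J : Type} [Fintype J] {n : ℕ} {κ u : J → ℕ} (h : κ ≤ u) :
    psi n κ u = (len u - len κ).descFactorial (n - wt κ) := if_pos h

theorem ev_nil (x : ℕ) : ev [] x = 0 := rfl

theorem ev_one (x : ℕ) : ev [1] x = 1 := by
  simp [ev]

/-- the common numerical content -/
theorem trn (h1 : T_POL) (h2 : T_BAS) : T_TRN := by
  obtain ⟨-, -, hmul, hshm, -⟩ := h1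
  intro J _ κ u n t hu hκ j e he
  have hb := h2 J κ u
  refine ⟨fun s g h0 hn hle => ?_, fun s g h0 hn hle => ?_, fun a ha h0 hn hle => ?_,
    fun a ha h0 hn hle => ?_⟩
  · -- new coordinate
    have hκu := (hb.2 j (e + 1)).2.2.2.1 hle
    obtain ⟨hl, hw, hid⟩ := hb.1 hκu
    have hw' := (hb.2 j (e + 1)).1
    have hl' := (hb.2 j e).2.1 h0
    have hx' := (hb.2 j e).2.2.2.2.1 h0 hle
    obtain ⟨hl2, hw2, hid2⟩ := (h2 J (κ + Pi.single j (e + 1)) u).1 hle
    rw [psi_of_le hκu, psi_of_le hle, stN, hmul, hshm, hw', hl']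
    rw [hl'] at hl2
    rw [hw', hl'] at hid2
    -- notation
    generalize hE : ex κ u = E at *
    generalize hE' : ex (κ + Pi.single j (e + 1)) u = E' at *
    generalize hW : wt κ = W at *
    generalize hA : len κ = A at *
    generalize hL : len u = L at *
    obtain ⟨b', hb'⟩ : ∃ b', n - W = b' + e + 1 := ⟨n - W - e - 1, by omega⟩
    have e1 : n - (W + (e + 1)) = b' := by omega
    have e2 : L - A = L - (A + 1) + 1 := by omega
    rw [hb', e1, e2]
    have e3 : b' + e + 1 - e = b' + 1 := by omega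
    rw [e3]
    by_cases hX : E' ≤ t
    · have e4 : L - (A + 1) = b' + (t - E') := by omega
      rw [e4, dF_succ, Nat.add_sub_cancel, dF_add _ b' e, Nat.add_sub_cancel_left]
      by_cases hY : E ≤ t
      · have e5 : t - E = t - E' - e := by omega
        rw [e5]
        ring_nf
      · have e6 : t - E' < e := by omega
        rw [Nat.descFactorial_eq_zero_iff_lt.2 e6]
        simp
    · have e4 : L - (A + 1) < b' := by omega
      have e5 : L - (A + 1) + 1 < b' + e + 1 := by omega
      rw [Nat.descFactorial_eq_zero_iff_lt.2 e4, Nat.descFactorial_eq_zero_iff_lt.2 e5]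
      simp
  · -- raise
    have hκu := (hb.2 j e).2.2.2.1 hle
    obtain ⟨hl, hw, hid⟩ := hb.1 hκu
    have hw' := (hb.2 j e).1
    have hl' := (hb.2 j e).2.2.1 h0
    have hx' := (hb.2 j e).2.2.2.2.2 h0 hle
    obtain ⟨hl2, hw2, hid2⟩ := (h2 J (κ + Pi.single j e) u).1 hle
    rw [psi_of_le hκu, psi_of_le hle, stR, hshm, hw', hl']
    rw [hl'] at hl2
    rw [hw', hl'] at hid2
    generalize hE : ex κ u = E at *
    generalize hE' : ex (κ + Pi.single j e) u = E' at *
    generalize hW : wt κ = W at *
    generalize hA : len κ = A at *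
    generalize hL : len u = L at *
    obtain ⟨b', hb'⟩ : ∃ b', n - W = b' + e := ⟨n - W - e, by omega⟩
    have e1 : n - (W + e) = b' := by omega
    rw [hb', e1]
    by_cases hX : E' ≤ t
    · have e4 : L - A = b' + (t - E') := by omega
      rw [e4, dF_add _ b' e, Nat.add_sub_cancel_left]
      by_cases hY : E ≤ t
      · have e5 : t - E = t - E' - e := by omega
        rw [e5]
        ring_nf
      · have e6 : t - E' < e := by omega
        rw [Nat.descFactorial_eq_zero_iff_lt.2 e6]
        simp
    · have e4 : L - A < b' := by omega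
      have e5 : L - A < b' + e := by omega
      rw [Nat.descFactorial_eq_zero_iff_lt.2 e4, Nat.descFactorial_eq_zero_iff_lt.2 e5]
      simp
  · -- first new coordinate
    have hκu := (hb.2 j (e + 1)).2.2.2.1 hle
    obtain ⟨hl, hw, hid⟩ := hb.1 hκu
    have hw' := (hb.2 j (e + 1)).1
    have hl' := (hb.2 j e).2.1 h0
    have hx' := (hb.2 j e).2.2.2.2.1 h0 hle
    obtain ⟨hl2, hw2, hid2⟩ := (h2 J (κ + Pi.single j (e + 1)) u).1 hle
    rw [psi_of_le hκu, psi_of_le hle, g1N, hmul, hshm, hw', hl', ev_one]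
    rw [hl'] at hl2
    rw [hw', hl'] at hid2
    generalize hE : ex κ u = E at *
    generalize hE' : ex (κ + Pi.single j (e + 1)) u = E' at *
    generalize hW : wt κ = W at *
    generalize hA : len κ = A at *
    generalize hL : len u = L at *
    obtain ⟨b', hb'⟩ : ∃ b', a = b' + e := ⟨a - e, by omega⟩
    obtain ⟨f, rfl⟩ : ∃ f, e = f + 1 := ⟨e - 1, by omega⟩
    have e1 : n - (W + (f + 1 + 1)) = b' := by omega
    have e2 : L - A = L - (A + 1) + 1 := by omega
    have e0 : n - 1 - W = b' + f + 1 := by omega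
    rw [e0, e1, e2]
    have e3 : a + 1 - (f + 1) = b' + 1 := by omega
    rw [e3, Nat.add_sub_cancel]
    by_cases hX : E' ≤ t
    · have e4 : L - (A + 1) = b' + (t - E') := by omega
      rw [e4, dF_succ, Nat.add_sub_cancel, dF_add _ b' f, Nat.add_sub_cancel_left]
      ring
    · have e4 : L - (A + 1) < b' := by omega
      have e5 : L - (A + 1) + 1 < b' + f + 1 := by omega
      rw [Nat.descFactorial_eq_zero_iff_lt.2 e4, Nat.descFactorial_eq_zero_iff_lt.2 e5]
      simp
  · -- first raise
    have hκu := (hb.2 j e).2.2.2.1 hle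
    obtain ⟨hl, hw, hid⟩ := hb.1 hκu
    have hw' := (hb.2 j e).1
    have hl' := (hb.2 j e).2.2.1 h0
    have hx' := (hb.2 j e).2.2.2.2.2 h0 hle
    obtain ⟨hl2, hw2, hid2⟩ := (h2 J (κ + Pi.single j e) u).1 hle
    rw [psi_of_le hκu, psi_of_le hle, g1R, hshm, hw', hl', ev_one]
    rw [hl'] at hl2
    rw [hw', hl'] at hid2
    generalize hE : ex κ u = E at *
    generalize hE' : ex (κ + Pi.single j e) u = E' at *
    generalize hW : wt κ = W at *
    generalize hA : len κ = A at *
    generalize hL : len u = L at *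
    obtain ⟨f, rfl⟩ : ∃ f, e = f + 1 := ⟨e - 1, by omega⟩
    obtain ⟨b', hb'⟩ : ∃ b', a = b' + f := ⟨a - f, by omega⟩
    have e1 : n - (W + (f + 1)) = b' := by omega
    have e0 : n - 1 - W = b' + f := by omega
    rw [e0, e1, Nat.add_sub_cancel]
    by_cases hX : E' ≤ t
    · have e4 : L - A = b' + (t - E') := by omega
      rw [e4, dF_add _ b' f, Nat.add_sub_cancel_left]
      ring
    · have e4 : L - A < b' := by omega
      have e5 : L - A < b' + f := by omega
      rw [Nat.descFactorial_eq_zero_iff_lt.2 e4, Nat.descFactorial_eq_zero_iff_lt.2 e5]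
      simp

end Pool.Agent.H18.GW
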