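import Pool.Agent.H18.GW.Defs

/-!
# MP_0b603e_al: good words, targets of the modules
-/

set_option autoImplicit false

open scoped commutatorElement

namespace Pool.Agent.H18.GW

open Pool.Agent.H11.EL Pool.Agent.H11.KT

/-! ## Part A: finite soluble groups -/

/-- (QQ) the group of sequences modulo the bounded sequences -/
def T_QQ : Prop := ∀ (r : ℕ) (w : FreeGroup (Fin r)) (G : ℕ → Type) [∀ K, Group (G K)],
  ∃ (Q : Type) (_ : Group Q) (π : (∀ K, G K) →* Q), Function.Surjective π ∧ Law w Q ∧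
    ∀ g : ∀ K, G K, π g = 1 ↔ ∃ m : ℕ, ∀ K, PW w m (g K)

/-- (PT) finitely generated perfect subgroups of `Q` are trivial -/
def T_PT : Prop := ∀ (r : ℕ) (w : FreeGroup (Fin r)) (G : ℕ → Type) [∀ K, Group (G K)]
  (Q : Type) [Group Q] (π : (∀ K, G K) →* Q), Function.Surjective π →
  (∀ g : ∀ K, G K, π g = 1 ↔ ∃ m : ℕ, ∀ K, PW w m (g K)) → (∀ K, Finite (G K)) →
  (∀ K, Group.IsSolvable (G K)) → ∀ A : Subgroup Q, A.FG → ⁅A, A⁆ = A → A = ⊥

/-- (GN) words whose values lie in finitely generated perfect subgroups are bounded -/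
def T_GN : Prop := ∀ (r : ℕ) (w : FreeGroup (Fin r)) (d : ℕ) (v : FreeGroup (Fin d)),
  (∀ (Q : Type) [Group Q], Law w Q → ∀ f : Fin d → Q,
    ∃ A : Subgroup Q, A.FG ∧ ⁅A, A⁆ = A ∧ FreeGroup.lift f v ∈ A) →
  ∃ M : ℕ, ∀ (G : Type) [Group G] [Finite G], Group.IsSolvable G → ∀ f : Fin d → G,
    PW w M (FreeGroup.lift f v)

/-- (FN) finitely generated nilpotent groups of finite exponent are finite -/
def T_FN : Prop := ∀ (G : Type) [Group G], Group.FG G → Group.IsNilpotent G → ∀ e : ℕ, 0 < e →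
  (∀ x : G, x ^ e = 1) → Finite G

/-- (KD) the subgroup `K` of the free group -/
def T_KD : Prop := ∀ (r : ℕ) (w : FreeGroup (Fin r)) (c e : ℕ), 0 < e → GoodCE c e w →
  ∀ d : ℕ, ∃ K : Subgroup (FreeGroup (Fin d)), K.Normal ∧ K.FiniteIndex ∧
    ∃ (s : ℕ) (κ ε ρ : Fin s → FreeGroup (Fin d)), Subgroup.closure (Set.range κ) = K ∧
      (∀ i, κ i = ε i * ρ i) ∧ (∀ i, ε i ∈ Pw e (FreeGroup (Fin d))) ∧
      ∀ i, ∀ (Q : Type) [Group Q], Law w Q → ∀ f : Fin d → Q,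
        ∃ A : Subgroup Q, A.FG ∧ ⁅A, A⁆ = A ∧ FreeGroup.lift f (ρ i) ∈ A

/-- (HB) if the generators are bounded for the word `x ^ e w(y)` then all elements are bounded -/
def T_HB : Prop := ∀ (r : ℕ) (w : FreeGroup (Fin r)) (e : ℕ), 0 < e → ∀ s m : ℕ, ∃ M : ℕ,
  ∀ (G : Type) [Group G] (L : Subgroup G) [Finite L], Group.IsSolvable L → ∀ κ : Fin s → G,
    Subgroup.closure (Set.range κ) = L → (∀ i, PW (w2 e w) m (κ i)) → ∀ h ∈ L, PW (w2 e w) M h

/-- (CB) simple commutators of elements which are bounded for the word `x ^ e w(y)` -/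
def T_CB : Prop := ∀ (r : ℕ) (w : FreeGroup (Fin r)) (c e : ℕ), 0 < e → GoodCE c e w →
  ∀ m : ℕ, ∃ M : ℕ, ∀ (G : Type) [Group G] [Finite G], Group.IsSolvable G → ∀ h : ℕ → G,
    (∀ i ≤ c, PW (w2 e w) m (h i)) → PW w M (scm c h)

/-- (SX) a factor `M / Z` inside a normal subgroup -/
def T_SX : Prop := ∀ (G : Type) [Group G] [Finite G], Group.IsSolvable G → ∀ N : Subgroup G,
  N.Normal → (∀ k, ¬ N ≤ Subgroup.upperCentralSeries G k) → ∃ M Z : Subgroup G, M ≤ N ∧ CF M Z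

/-- (HC) hypercentral normal subgroups -/
def T_HC : Prop := ∀ (G : Type) [Group G] (N : Subgroup G), N.Normal → ∀ k : ℕ,
  N ≤ Subgroup.upperCentralSeries G k → ∀ (s m : ℕ) (n : ℕ → G), 0 < m →
  Subgroup.closure (en s n) = ⊤ → ∀ g ∈ ⁅N, (⊤ : Subgroup G)⁆, ∃ c : ℕ → G, (∀ i, c i ∈ N) ∧
    Px (2 * s * m) (cj (pat s n) c) = g ∧
      Subgroup.closure (en (2 * s * m) (cj (pat s n) c)) = ⊤

/-- (NS) Nikolov, Segal: the elements of `⁅N, G⁆` -/
def T_NS : Prop := ∀ (d s : ℕ) (G : Type) [Group G] [Finite G], Group.IsSolvable G →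
  ∀ h : Fin d → G, Subgroup.closure (Set.range h) = ⊤ → ∀ n : ℕ → G,
    Subgroup.closure (en s n) = ⊤ → ∀ N : Subgroup G, N.Normal → ∀ g ∈ ⁅N, (⊤ : Subgroup G)⁆,
      ∃ c : ℕ → G, (∀ i, c i ∈ N) ∧ Px (2 * s * (4 * (d + 3))) (cj (pat s n) c) = g ∧
        Subgroup.closure (en (2 * s * (4 * (d + 3))) (cj (pat s n) c)) = ⊤

/-- (GC) the terms of the lower central series: bounded products of simple commutators -/
def T_GC : Prop := ∀ c d : ℕ, ∃ n : ℕ, ∀ (G : Type) [Group G] [Finite G], Group.IsSolvable G →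
  ∀ s : Fin d → G, Subgroup.closure (Set.range s) = ⊤ →
    ∀ g ∈ (⊤ : Subgroup G).lowerCentralSeries c, BP (Set.range (scm (G := G) c)) n g

/-- (ZZ) a subgroup of bounded index with bounded `γ_{c+1}` -/
def T_ZZ : Prop := ∀ (r : ℕ) (w : FreeGroup (Fin r)) (c e : ℕ), 0 < e → GoodCE c e w →
  ∀ d : ℕ, ∃ i₀ M : ℕ, ∀ (G : Type) [Group G] [Finite G], Group.IsSolvable G → ∀ s : Fin d → G,
    Subgroup.closure (Set.range s) = ⊤ → ∃ H : Subgroup G, H.index ≤ i₀ ∧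
      ∀ g ∈ H.lowerCentralSeries c, PW w M g

/-! ## Part B: words in finitely generated virtually nilpotent groups -/

/-- (NV) subgroups of finitely generated virtually nilpotent groups are finitely generated -/
def T_NV : Prop := ∀ (R : Type) [Group R], Group.FG R → ∀ N : Subgroup R, N.FiniteIndex →
  Group.IsNilpotent N → ∀ K : Subgroup R, K.FG

/-- (WA) the derived group of `w(R) ∩ N` -/
def T_WA : Prop := ∀ (R : Type) [Group R], (∀ K : Subgroup R, K.FG) → ∀ N : Subgroup R,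
  N.Normal → Group.IsNilpotent N → ∀ (r : ℕ) (w : FreeGroup (Fin r)), ∃ m : ℕ,
    ∀ g ∈ ⁅Vb w R ⊓ N, Vb w R ⊓ N⁆, PW w m g

/-- (WB) `w(R)` is abelian by finite -/
def T_WB : Prop := ∀ (R : Type) [Group R], (∀ K : Subgroup R, K.FG) → ∀ A : Subgroup R,
  A.Normal → (∀ x ∈ A, ∀ y ∈ A, x * y = y * x) → ∀ (r : ℕ) (w : FreeGroup (Fin r)),
    A ≤ Vb w R → A.relIndex (Vb w R) ≠ 0 → ∃ m : ℕ, ∀ g ∈ ⁅Vb w R, Vb w R⁆, PW w m g

/-- (WD) the derived group of `w(R)` is bounded -/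
def T_WD : Prop := ∀ (R : Type) [Group R], (∀ K : Subgroup R, K.FG) → ∀ N : Subgroup R,
  N.Normal → N.FiniteIndex → Group.IsNilpotent N → ∀ (r : ℕ) (w : FreeGroup (Fin r)),
    ∃ m : ℕ, ∀ g ∈ ⁅Vb w R, Vb w R⁆, PW w m g

/-- (LM) products, inverses and commutators of polynomial maps (Lazard, Leibman) -/
def T_LM : Prop := ∀ (Γ R : Type) [Group Γ] [Group R] (F : ℕ → Subgroup R), Filt F →
  ∀ m : ℕ,
    (∀ (i : ℕ) (f g : Γ → R), PP F m i f → PP F m i g → PP F m i (fun x => f x * g x)) ∧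
    (∀ (i : ℕ) (f : Γ → R), PP F m i f → PP F m i (fun x => (f x)⁻¹)) ∧
    (∀ (i j : ℕ) (f g : Γ → R), PP F m i f → PP F m j g →
      PP F m (i + j) (fun x => ⁅f x, g x⁆)) ∧
    (∀ (i : ℕ) (f : Γ → R), PP F m (i + 1) f → PP F m i f)

/-- (LW) words in polynomial maps -/
def T_LW : Prop := ∀ (Γ R : Type) [Group Γ] [Group R] (F : ℕ → Subgroup R), Filt F →
  ∀ (m r : ℕ) (w : FreeGroup (Fin r)) (φ : Fin r → Γ → R), (∀ i, PP F m 0 (φ i)) →
    PP F m 0 (fun x => FreeGroup.lift (fun i => φ i x) w)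

/-- (FI) the lower central series of a normal subgroup is a filtration -/
def T_FI : Prop := ∀ (R : Type) [Group R] (N : Subgroup R), N.Normal → Filt (fil N)

/-- (PO) the map `h ↦ w(g)⁻¹ w(g h)` is polynomial on `N ^ r` -/
def T_PO : Prop := ∀ (R : Type) [Group R] (N : Subgroup R), N.Normal → ∀ c : ℕ,
  N.lowerCentralSeries c = ⊥ → ∀ (r : ℕ) (w : FreeGroup (Fin r)) (g : Fin r → R),
    Pol (c + 1) (fun h : Fin r → N =>
      (FreeGroup.lift g w)⁻¹ * FreeGroup.lift (fun i => g i * (h i : R)) w)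

/-- (SB) the sum of a family of bounded subgroups of a noetherian abelian group -/
def T_SB : Prop := ∀ (R : Type) [Group R] (W : Subgroup R), (∀ x ∈ W, ∀ y ∈ W, x * y = y * x) →
  (∀ B : Subgroup R, B ≤ W → B.FG) → ∀ (S : Set R) (I : Type) (A : I → Subgroup R),
    (∀ i, A i ≤ W) → (∀ i, ∃ t : ℕ, ∀ a ∈ A i, BP S t a) → ∃ t : ℕ, ∀ a ∈ ⨆ i, A i, BP S t a

/-- (PM) the values of a polynomial map to a noetherian abelian group generate a subgroup of
bounded width -/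
def T_PM : Prop := ∀ (Γ R : Type) [Group Γ] [Group R] (W : Subgroup R),
  (∀ x ∈ W, ∀ y ∈ W, x * y = y * x) → (∀ B : Subgroup R, B ≤ W → B.FG) →
  ∀ (n : ℕ) (f : Γ → R), (∀ x, f x ∈ W) → f 1 = 1 → Pol n f → ∃ t : ℕ,
    ∀ a ∈ Subgroup.closure (Set.range f), BP (Set.range f) t a

/-- (DD) the differences of the values generate a bounded subgroup -/
def T_DD : Prop := ∀ (R : Type) [Group R], (∀ K : Subgroup R, K.FG) → ∀ N : Subgroup R,
  N.Normal → Group.IsNilpotent N → ∀ (r : ℕ) (w : FreeGroup (Fin r)),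
    (∀ x ∈ Vb w R, ∀ y ∈ Vb w R, x * y = y * x) → ∃ (D : Subgroup R) (m : ℕ), D.Normal ∧
      (∀ g ∈ D, PW w m g) ∧ ∀ g h : Fin r → R, (∀ i, (g i)⁻¹ * h i ∈ N) →
        (FreeGroup.lift g w)⁻¹ * FreeGroup.lift h w ∈ D

/-- (SW) Schur, Zassenhaus: if `w` depends only on the cosets of a normal Hall subgroup `P` then
`w(G)` and `P` intersect trivially -/
def T_SW : Prop := ∀ (G : Type) [Group G] [Finite G] (P : Subgroup G), P.Normal →
  (Nat.card P).Coprime P.index → ∀ (r : ℕ) (w : FreeGroup (Fin r)),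
    (∀ g h : Fin r → G, (∀ i, (g i)⁻¹ * h i ∈ P) → FreeGroup.lift g w = FreeGroup.lift h w) →
      Vb w G ⊓ P = ⊥

/-- (NX) the exponent of a nilpotent group -/
def T_NX : Prop := ∀ (E : Type) [Group E], Group.IsNilpotent E → ∀ q : ℕ,
  (∀ z ∈ Subgroup.center E, z ^ q = 1) → ∃ n : ℕ, ∀ x : E, x ^ (q ^ n) = 1

/-- (RP) a finite normal `p`-subgroup of a finitely generated nilpotent group -/
def T_RP : Prop := ∀ (E : Type) [Group E], Group.FG E → Group.IsNilpotent E → ∀ p : ℕ,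
  p.Prime → ∀ P : Subgroup E, P.Normal → Finite P → IsPGroup p P →
    ∃ k : ℕ, Pw (p ^ k) E ⊓ P = ⊥

/-- (FM) if `w` depends only on the cosets of `N` then `w(R) ∩ N` is divisible by a prime -/
def T_FM : Prop := ∀ (R : Type) [Group R], (∀ K : Subgroup R, K.FG) → ∀ N : Subgroup R,
  N.Normal → N.FiniteIndex → Group.IsNilpotent N → ∀ (r : ℕ) (w : FreeGroup (Fin r)),
    (∀ x ∈ Vb w R, ∀ y ∈ Vb w R, x * y = y * x) →
    (∀ g h : Fin r → R, (∀ i, (g i)⁻¹ * h i ∈ N) → FreeGroup.lift g w = FreeGroup.lift h w) →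
      ∃ p : ℕ, p.Prime ∧ ∀ x ∈ Vb w R ⊓ N, ∃ y ∈ Vb w R ⊓ N, y ^ p = x

/-- (FW) if `w` depends only on the cosets of `N` then `w(R)` is finite -/
def T_FW : Prop := ∀ (R : Type) [Group R], (∀ K : Subgroup R, K.FG) → ∀ N : Subgroup R,
  N.Normal → N.FiniteIndex → Group.IsNilpotent N → ∀ (r : ℕ) (w : FreeGroup (Fin r)),
    (∀ x ∈ Vb w R, ∀ y ∈ Vb w R, x * y = y * x) →
    (∀ g h : Fin r → R, (∀ i, (g i)⁻¹ * h i ∈ N) → FreeGroup.lift g w = FreeGroup.lift h w) →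
      Finite (Vb w R)

/-- (BX) extension by a bounded normal subgroup -/
def T_BX : Prop := ∀ (R : Type) [Group R] (L : Subgroup R) [L.Normal] (r : ℕ)
  (w : FreeGroup (Fin r)), (∃ m : ℕ, ∀ g ∈ L, PW w m g) →
    (∃ n : ℕ, ∀ g ∈ Vb w (R ⧸ L), PW w n g) → ∃ n : ℕ, ∀ g ∈ Vb w R, PW w n g

/-- (VN) every word has finite width in every finitely generated virtually nilpotent group -/
def T_VN : Prop := ∀ (R : Type) [Group R], Group.FG R → ∀ N : Subgroup R, N.Normal →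
  N.FiniteIndex → Group.IsNilpotent N → ∀ (r : ℕ) (w : FreeGroup (Fin r)),
    ∃ m : ℕ, ∀ g ∈ Vb w R, PW w m g

/-! ## Part C: the theorem -/

/-- (KK) a subgroup of finite index inside all the normal subgroups of small index -/
def T_KK : Prop := ∀ d n : ℕ, ∃ K : Subgroup (FreeGroup (Fin d)), K.Normal ∧ K.FiniteIndex ∧
  ∀ L : Subgroup (FreeGroup (Fin d)), L.Normal → L.index ≠ 0 → L.index ≤ n → K ≤ L

/-- (MW) good words have bounded width in finite soluble-by-bounded groups -/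
def T_MW : Prop := ∀ (r : ℕ) (w : FreeGroup (Fin r)), GoodWord w → ∀ ρ d : ℕ, ∃ K : ℕ,
  ∀ (G : Type) [Group G] [Finite G],
    (∃ S : Subgroup G, S.Normal ∧ Group.IsSolvable S ∧ S.index ≤ ρ) →
    (∃ s : Finset G, s.card ≤ d ∧ Subgroup.closure (s : Set G) = ⊤) →
    ∀ g ∈ Vb w G, PW w K g

/-- (FO) forcing words are good -/
def T_FO : Prop := ∀ (r : ℕ) (w : FreeGroup (Fin r)), ForcingWord w → GoodWord w

/-! ## Part D: explicit good words -/

/-- restrained groups -/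
def Rst (m : ℕ) (H : Type) [Group H] : Prop := ∀ a b : H,
  a ∈ Subgroup.closure {g | ∃ i : ℕ, 1 ≤ i ∧ i ≤ m ∧ g = b ^ i * a * (b ^ i)⁻¹}

/-- (RG) finitely generated restrained groups: cyclic quotients -/
def T_RG : Prop := ∀ (m : ℕ) (H : Type) [Group H], Group.FG H → Rst m H →
  ∀ (Y : Subgroup H) [Y.Normal], IsCyclic (H ⧸ Y) → Y.FG

/-- (RD) finitely generated restrained groups: the derived group -/
def T_RD : Prop := ∀ (m : ℕ) (H : Type) [Group H], Group.FG H → Rst m H → (commutator H).FG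

/-- (UA) groups of automorphisms with `(x - 1) ^ 2 = 0` -/
def T_UA : Prop := ∀ (A V : Type) [Group A] [AddCommGroup V] [DistribMulAction A V],
  (∀ (x : A) (v : V), x • (x • v - v) - (x • v - v) = 0) →
    ∀ n ∈ Pw 2 A, ∀ (y z : A) (v : V),
      z • (y • (n • v - v) - (n • v - v)) - (y • (n • v - v) - (n • v - v)) = 0

/-- (UB) the same for the action on `Y / Y'` -/
def T_UB : Prop := ∀ (H : Type) [Group H] (Y : Subgroup H), Y.Normal →
  (∀ y ∈ Y, ∀ x : H, ⁅⁅y, x⁆, x⁆ ∈ ⁅Y, Y⁆) →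
    ⁅⁅⁅Y, Pw 2 H⁆, (⊤ : Subgroup H)⁆, (⊤ : Subgroup H)⁆ ≤ ⁅Y, Y⁆

/-- (UC) the derived series becomes stationary -/
def T_UC : Prop := ∀ (H : Type) [Group H] (N : Subgroup H), N.Normal → commutator H ≤ N →
  (∀ Y : Subgroup H, Y.Normal → ⁅⁅⁅Y, N⁆, N⁆, N⁆ ≤ ⁅Y, Y⁆) →
    derivedSeries H 6 = derivedSeries H 5 ∧ N.lowerCentralSeries 13 ≤ derivedSeries H 5

/-- (UD) the explicit words are good -/
def T_UD : Prop := ∀ (m : ℕ) (c : FreeGroup (Fin m)), c ∈ commutator (FreeGroup (Fin m)) →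
  GoodWord (gword wordB m c) ∧ GoodWord (gword wordC m c)

end Pool.Agent.H18.GW
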