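import Pool.Agent.H18.GW.Ext

/-!
# MP_0b603e_al: good words, further targets
-/

set_option autoImplicit false

open scoped commutatorElement

namespace Pool.Agent.H18.GW

open Pool.Agent.H11.EL Pool.Agent.H11.KT

/-- (FK) a normal subgroup `K` of `R` such that `N / K` is a finite `p`-group and
`K ∩ M ≤ M ^ p` -/
def T_FK : Prop := ∀ (R : Type) [Group R], (∀ K : Subgroup R, K.FG) → ∀ N : Subgroup R,
  N.Normal → Group.IsNilpotent N → ∀ M : Subgroup R, M.Normal → M ≤ N →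
    (∀ x ∈ M, ∀ y ∈ M, x * y = y * x) → ∀ p : ℕ, p.Prime →
      ∃ K : Subgroup R, K.Normal ∧ K ≤ N ∧ (∃ j : ℕ, K.relIndex N = p ^ j) ∧
        ∀ x ∈ K, x ∈ M → ∃ y ∈ M, y ^ p = x

/-- (CI) the core of a subgroup of a subgroup -/
def T_CI : Prop := ∀ (G : Type) [Group G] [Finite G] (S : Subgroup G) (H : Subgroup S) (ρ i : ℕ),
  S.index ≤ ρ → H.index ≤ i → ∃ C : Subgroup G, C.Normal ∧ C ≤ H.map S.subtype ∧
    C.index ≤ (ρ * i).factorial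

/-- (UE) the law of an explicit word -/
def T_UE : Prop := ∀ (m : ℕ) (c : FreeGroup (Fin m)), c ∈ commutator (FreeGroup (Fin m)) →
  ∀ (H : Type) [Group H],
    (Law (gword wordB m c) H → Rst (max m 2) H ∧
      ∀ Y : Subgroup H, Y.Normal → ∀ y ∈ Y, ∀ x : H, ⁅y, x ^ 2⁆ ∈ ⁅Y, Y⁆) ∧
    (Law (gword wordC m c) H → Rst (max m 2) H ∧
      ∀ Y : Subgroup H, Y.Normal → ∀ y ∈ Y, ∀ x : H, ⁅⁅y, x⁆, x⁆ ∈ ⁅Y, Y⁆)

/-- (UG) a criterion for good words -/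
def T_UG : Prop := ∀ (r : ℕ) (w : FreeGroup (Fin r)) (m : ℕ),
  (∀ (H : Type) [Group H], Law w H → Rst m H ∧
    ∀ Y : Subgroup H, Y.Normal → ⁅⁅⁅Y, Pw 2 H⁆, Pw 2 H⁆, Pw 2 H⁆ ≤ ⁅Y, Y⁆) → GoodCE 13 2 w

end Pool.Agent.H18.GW
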