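import Pool.Agent.H55.GW.Targets3

/-!
# Module WIN: composition with a window
-/

set_option autoImplicit false

namespace Pool.Agent.H18.GW.WIN

open Pool.Agent.H55.GW

theorem low_symm {c : Ctx} {i : ℕ} {x y : Vx} (h : c.low i x y) : c.low i y x := Or.symm h

theorem win_symm {c : Ctx} {i : ℕ} {x y : Vx} (h : c.win i x y) : c.win i y x :=
  ⟨low_symm h.1, fun h' => h.2 (low_symm h')⟩

/-- a matched vertex has an incident edge of the allowed kind -/
theorem pmat_edge {F : Frame} {ed : Vx → Vx → Prop} (hed : ∀ x y, ed x y → ed y x) {J : Set ℕ}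
    {m : ℕ → Vx} (h : PMat F ed J m) {v : ℕ} (hv : v ∈ J) :
    ∃ y, F.G (Sum.inr v) y ∧ ed (Sum.inr v) y := by
  obtain ⟨-, ⟨e, -, h2, h3⟩ | ⟨u, -, -, -, h2, h3⟩⟩ := h v hv
  · exact ⟨Sum.inl e, h2, hed _ _ h3⟩
  · exact ⟨Sum.inr u, Frame.G_symm h2, hed _ _ h3⟩

theorem win (hS : T_SPL) (hA : T_LOWA) (hB : T_LOWB) : T_WIN := by
  intro c hc i hi A hAX C hCW K hK Y
  obtain ⟨L1, L2, L3⟩ := hA c hc (i + 1) hi
  obtain ⟨W1, W2, -, -, -, -, W7, -⟩ := hB c hc i hi
  have hsub : c.Xs (i + 1) ⊆ c.Xs i := fun e he =>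
    ⟨he.1, fun h => he.2 (hc.mono i (i + 1) (Nat.le_succ i) hi h)⟩
  have hun : c.Xs (i + 1) ∪ c.We i = c.Xs i := Set.union_sdiff_cancel hsub
  have key := hS c.F (c.low i) (c.low (i + 1)) (c.win i) (c.Xs (i + 1)) (c.We i) A C
    (c.cvS i K Y) (fun x y h => low_symm h) (fun x y h => win_symm h) (fun x y => by
      constructor
      · intro h
        by_cases h' : c.low (i + 1) x y
        · exact Or.inl h'
        · exact Or.inr ⟨h, h'⟩
      · rintro (h | h)
        · exact W1 x y h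
        · exact h.1) (fun x y h => h.2.2 h.1) Set.disjoint_sdiff_right
    (fun e v hev => ⟨L1 e v hev, W2 e v hev⟩) hAX hCW
  rw [hun] at key
  have hst : ((K, Y) ∈ c.St i (A ∪ C)) ↔ Cv c.F (c.low i) (c.Xs i) (A ∪ C) (c.cvS i K Y) :=
    ⟨fun h => h.2, fun h => ⟨hK, h⟩⟩
  rw [hst, key]
  constructor
  · rintro ⟨J₁, hJ, h1, h2⟩
    have hcv : J₁ = c.cvS (i + 1) (J₁ ∩ (c.Ξ : Set ℕ)) {a | c.s (i + 1) a ∈ J₁} := by
      ext v
      constructor
      · intro hv
        obtain ⟨-, m, hm, -⟩ := h1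
        have hvV : v ∈ c.F.V := (hm v hv).1
        obtain ⟨y, -, hy⟩ := pmat_edge (fun x y h => low_symm h) hm hv
        by_cases hX : v ∈ c.Ξ
        · exact Or.inl (Or.inr ⟨hv, by simpa using hX⟩)
        · by_cases hs : ∃ a, v = c.s (i + 1) a
          · obtain ⟨a, rfl⟩ := hs
            exact Or.inr ⟨a, hv, rfl⟩
          · push Not at hs
            by_cases hO : Sum.inr v ∈ c.O (i + 1)
            · exact absurd hy (L3 v hO hX hs y)
            · exact Or.inl (Or.inl ⟨hvV, hO, hX, hs⟩)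
      · rintro ((hv | hv) | ⟨a, ha, rfl⟩)
        · by_contra hn
          obtain ⟨-, m, hm, -⟩ := h2
          have hvJ : v ∈ c.cvS i K Y := W7 K Y (Or.inl (Or.inl hv))
          obtain ⟨y, hy1, hy2⟩ := pmat_edge (fun x y h => win_symm h) hm
            (show v ∈ c.cvS i K Y \ J₁ from ⟨hvJ, hn⟩)
          exact hy2.2 (L2 v hv y hy1)
        · exact hv.1
        · exact ha
    refine ⟨J₁ ∩ (c.Ξ : Set ℕ), ?_, {a | c.s (i + 1) a ∈ J₁}, ⟨Set.inter_subset_right, ?_⟩,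
      ?_, ?_⟩
    · rintro v ⟨hv, hvX⟩
      have hvX' : v ∈ c.Ξ := by simpa using hvX
      rcases hJ hv with (h | h) | ⟨a, -, h⟩
      · exact absurd hvX' h.2.2.1
      · exact h
      · exact absurd (h ▸ hvX') (hc.sV i hi.le a).2.1
    · simp only
      rw [← hcv]
      exact h1
    · rw [← hcv]
      exact hJ
    · rw [← hcv]
      exact h2
  · rintro ⟨K', -, Y', ⟨-, h1⟩, h2, h3⟩
    exact ⟨c.cvS (i + 1) K' Y', h2, h1, h3⟩

end Pool.Agent.H18.GW.WIN
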